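import Pool.Agent.H98.CP.St

set_option autoImplicit false

/-! Modules Level and Comp: one level from the tests of the layers; the compression theorem. -/

namespace Pool.Agent.H40.CP

open Finset ComplexConjugate H95.CP Pool.Agent.H67.CM Pool.Agent.H98.CP

lemma band_unique {j b b' n : ℕ} (h : Band j b n) (h' : Band j b' n) : b = b' := by
  have key : ∀ {b b' : ℕ}, Band j b n → Band j b' n → b' ≤ b := by
    intro b b' h h'
    have h1 := h.lt
    have h2 := h'.gt
    have h3 : 8 ^ b' < 8 ^ (b + 1) := by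
      rw [pow_succ]
      omega
    have h4 := (Nat.pow_lt_pow_iff_right (by norm_num : 1 < 8)).1 h3
    omega
  exact le_antisymm (key h' h) (key h h')

lemma mem_DD {M j b c : ℕ} {k : G M} :
    k ∈ DD M j b c ↔ Band j b (fa k.1) ∧ Band j c (fa k.2) := by
  unfold DD
  simp only [mem_filter, mem_univ, true_and]

lemma DD_mono {M j j' b c : ℕ} (h : j ≤ j') {k : G M} (hk : k ∈ DD M j b c) :
    k ∈ DD M j' b c := by
  rw [mem_DD] at hk ⊢
  exact ⟨hk.1.mono h, hk.2.mono h⟩

lemma layer_unique {M j b u b' u' : ℕ} {k : G M} (hR : Rg M u b) (hR' : Rg M u' b')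
    (h : k ∈ DD M j b (M + u - b)) (h' : k ∈ DD M j b' (M + u' - b')) : u = u' := by
  rw [mem_DD] at h h'
  have h1 := band_unique h.1 h'.1
  have h2 := band_unique h.2 h'.2
  have h3 := hR.2.1
  have h4 := hR'.2.1
  omega

open scoped Classical in
/-- combination of the functions of the layers -/
noncomputable def comb (M j0 j : ℕ) (phi : G M → ℂ) (f : ℕ → G M → ℂ) (k : G M) : ℂ :=
  if h : ∃ u, u ∈ lay j0 j M ∧ ∃ b, Rg M u b ∧ k ∈ DD M j b (M + u - b) then f h.choose k
  else phi k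

lemma comb_in {M j0 j u b : ℕ} {phi : G M → ℂ} {f : ℕ → G M → ℂ} {k : G M}
    (hu : u ∈ lay j0 j M) (hR : Rg M u b) (hk : k ∈ DD M j b (M + u - b)) :
    comb M j0 j phi f k = f u k := by
  have h : ∃ u, u ∈ lay j0 j M ∧ ∃ b, Rg M u b ∧ k ∈ DD M j b (M + u - b) :=
    ⟨u, hu, b, hR, hk⟩
  unfold comb
  rw [dif_pos h]
  obtain ⟨_, b', hR', hk'⟩ := h.choose_spec
  rw [layer_unique hR' hR hk' hk]

lemma comb_out {M j0 j u b : ℕ} {phi : G M → ℂ} {f : ℕ → G M → ℂ} {k : G M}
    (hu : u ∉ lay j0 j M) (hR : Rg M u b) (hk : k ∈ DD M j b (M + u - b)) :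
    comb M j0 j phi f k = phi k := by
  unfold comb
  rw [dif_neg]
  rintro ⟨u', hu', b', hR', hk'⟩
  rw [layer_unique hR hR' hk hk'] at hu
  exact hu hu'

theorem level (hT : StTest) : StLevel := by
  obtain ⟨j1, hT⟩ := hT
  refine ⟨j1, fun A hA j0 j M h1 h2 h3 hbig S phi hS => ?_⟩
  classical
  have hlay : ∀ u ∈ lay j0 j M, u ∈ range (M + 1) ∧ j0 + Nat.size u ≤ j := by
    intro u hu
    unfold lay at hu
    rw [mem_filter] at hu
    exact hu
  have key : ∀ u, ∃ psi : Cf M → G M → ℂ, u ∈ lay j0 j M →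
      Kraft S psi (fun _ => ctest A M u j) ∧
      ∀ w ∈ S, (∀ k, psi w k ≠ 0 → k ∈ w.Lam) ∧
        ∀ b, Rg M u b → (colm w.Lam b).card ≤ 8 ^ M →
          ∀ k ∈ DD M j b (M + u - b), ‖co2 (cx w.g) k - psi w k‖ ^ 2 ≤ TH j / 8 ^ M := by
    intro u
    by_cases hu : u ∈ lay j0 j M
    · obtain ⟨psi, hp1, hp2⟩ := hT A hA j0 j u M
        ⟨h1, (hlay u hu).2, h3.le, hbig⟩ S phi hS
      exact ⟨psi, fun _ => ⟨hp1, hp2⟩⟩
    · exact ⟨fun _ => phi, fun h => absurd h hu⟩
  choose psi hpsi using key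
  have hK := Kraft.pi (S := S) (f := fun u => psi u) (c := fun u _ => ctest A M u j) phi
    (lay j0 j M) (fun u hu => (hpsi u hu).1)
  have hK2 := hK.map (comb M j0 j phi)
  refine ⟨_, hK2, fun w hw => ⟨fun k hk => ?_, fun b u hR hc k hkD => ?_⟩⟩
  · -- spectrum
    by_cases h : ∃ u, u ∈ lay j0 j M ∧ ∃ b, Rg M u b ∧ k ∈ DD M j b (M + u - b)
    · obtain ⟨u, hu, b, hR, hkD⟩ := h
      rw [comb_in hu hR hkD] at hk
      simp only [hu, if_true] at hk
      exact ((hpsi u hu).2 w hw).1 k hk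
    · unfold comb at hk
      rw [dif_neg h] at hk
      exact (hS w hw).1.1 k hk
  · by_cases hu : u ∈ lay j0 j M
    · rw [comb_in hu hR hkD]
      simp only [hu, if_true]
      have e1 : max j (j0 + Nat.size u) = j := max_eq_left (hlay u hu).2
      rw [e1]
      exact ((hpsi u hu).2 w hw).2 b hR hc k hkD
    · rw [comb_out hu hR hkD]
      have h4 : j < j0 + Nat.size u := by
        by_contra hlt
        apply hu
        unfold lay
        rw [mem_filter, mem_range]
        have h5 := hR.2.1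
        have h6 := hR.2.2.1
        exact ⟨by omega, by omega⟩
      have e1 : max j (j0 + Nat.size u) = j0 + Nat.size u := max_eq_right h4.le
      have e2 : max (j + 1) (j0 + Nat.size u) = j0 + Nat.size u := max_eq_right h4
      rw [e1]
      have h7 := (hS w hw).1.2 b u hR hc k (DD_mono (Nat.le_succ j) hkD)
      rwa [e2] at h7

theorem comp (hTop : StTop) (hLev : StLevel) (hSum : StSum) : StComp := by
  intro A c hA hc
  obtain ⟨jt, hTop⟩ := hTop A hA
  obtain ⟨jl, hLev⟩ := hLev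
  obtain ⟨js, hSum⟩ := hSum A c hA hc
  refine ⟨max jt (max jl js), fun j0 hj0 => ?_⟩
  have ht : jt ≤ j0 := (le_max_left _ _).trans hj0
  have hl : jl ≤ j0 := ((le_max_left _ _).trans (le_max_right _ _)).trans hj0
  have hs : js ≤ j0 := ((le_max_right _ _).trans (le_max_right _ _)).trans hj0
  obtain ⟨M1, hM1⟩ := hSum j0 hs
  refine ⟨M1, fun M hM S hS => ?_⟩
  obtain ⟨hbig, hcost⟩ := hM1 M hM
  have key : ∀ i, i ≤ Nat.size M → ∃ psi : Cf M → G M → ℂ,
      Kraft S psi (fun _ => 8 ^ M + ∑ j ∈ Ico (j0 + Nat.size M - i) (j0 + Nat.size M),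
        ∑ u ∈ lay j0 j M, ctest A M u j) ∧
      ∀ w ∈ S, Know j0 (j0 + Nat.size M - i) (psi w) w := by
    intro i
    induction i with
    | zero =>
      intro _
      obtain ⟨psi, h1, h2⟩ := hTop j0 M ht hbig S hS
      refine ⟨psi, ?_, ?_⟩
      · simpa using h1
      · simpa using h2
    | succ i ih =>
      intro hi
      obtain ⟨psi, h1, h2⟩ := ih (by omega)
      have hstep : ∀ phi : G M → ℂ, ∃ psi' : Cf M → G M → ℂ,
          Kraft {w | w ∈ S ∧ psi w = phi} psi'
            (fun _ => ∑ u ∈ lay j0 (j0 + Nat.size M - (i + 1)) M,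
              ctest A M u (j0 + Nat.size M - (i + 1))) ∧
          ∀ w ∈ {w | w ∈ S ∧ psi w = phi}, Know j0 (j0 + Nat.size M - (i + 1)) (psi' w) w := by
        intro phi
        refine hLev A hA j0 (j0 + Nat.size M - (i + 1)) M hl (by omega) (by omega) hbig
          {w | w ∈ S ∧ psi w = phi} phi ?_
        rintro w ⟨hw, hwp⟩
        refine ⟨?_, hS w hw⟩
        have e1 : j0 + Nat.size M - (i + 1) + 1 = j0 + Nat.size M - i := by omega
        rw [e1, ← hwp]
        exact h2 w hw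
      choose psi' hp1 hp2 using hstep
      refine ⟨fun w => psi' (psi w) w, ?_, fun w hw => hp2 (psi w) w ⟨hw, rfl⟩⟩
      have h3 := h1.chain' psi' (fun _ _ => ∑ u ∈ lay j0 (j0 + Nat.size M - (i + 1)) M,
              ctest A M u (j0 + Nat.size M - (i + 1))) hp1
      refine h3.mono (Set.Subset.refl _) (fun _ _ => rfl) (fun w _ => ?_)
      have e2 : Ico (j0 + Nat.size M - (i + 1)) (j0 + Nat.size M)
          = insert (j0 + Nat.size M - (i + 1)) (Ico (j0 + Nat.size M - i) (j0 + Nat.size M)) := by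
        ext x
        rw [mem_insert, mem_Ico, mem_Ico]
        omega
      rw [e2, sum_insert (by rw [mem_Ico]; omega)]
      linarith
  obtain ⟨psi, h1, h2⟩ := key (Nat.size M) le_rfl
  rw [Nat.add_sub_cancel] at h1 h2
  exact ⟨psi, h1.mono (Set.Subset.refl _) (fun _ _ => rfl) (fun _ _ => hcost), h2⟩

end Pool.Agent.H40.CP
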